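import Pool.Agent.H268R4.Disc

set_option autoImplicit false

namespace Pool.Agent.Results.MP_e82547_al.Disconnected

/-- `E` is a nontrivial elementary abelian `p`-subgroup of `G`, i.e. `E ∈ A_p(G)`. -/
def ElemAb {G : Type} [Group G] (p : ℕ) (E : Subgroup G) : Prop :=
  E ≠ ⊥ ∧ (∀ x ∈ E, ∀ y ∈ E, x * y = y * x) ∧ (∀ x ∈ E, x ^ p = 1)

/-- `E` and `F` lie in the same connected component of the poset `A_p(G)`: they are joined by a
finite chain of comparabilities inside `A_p(G)`. -/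
def SameComponent {G : Type} [Group G] (p : ℕ) (E F : Subgroup G) : Prop :=
  Relation.ReflTransGen (fun A B : Subgroup G => ElemAb p A ∧ ElemAb p B ∧ (A ≤ B ∨ B ≤ A)) E F

/-- The reduced Euler characteristic of `A_p(G)^g` (the formula of the frozen statement). -/
noncomputable def chiTilde {G : Type} [Group G] (p : ℕ) (g : G) : ℤ :=
  ∑ᶠ (s : Finset (Subgroup G))
    (_ : IsChain (· ≤ ·) (s : Set (Subgroup G)) ∧
      ∀ E ∈ s, E ≠ ⊥ ∧ (∀ x ∈ E, ∀ y ∈ E, x * y = y * x) ∧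
        (∀ x ∈ E, x ^ p = 1) ∧ (∀ x : G, x ∈ E ↔ g * x * g⁻¹ ∈ E)),
    ((-1 : ℤ) ^ (s.card + 1))

/-- If `A_p(G)` is disconnected then some `g` normalises no member of `A_p(G)`, so that
`A_p(G)^g` is empty and its reduced Euler characteristic is `-1`. -/
theorem result :
    ∀ (G : Type) [Group G] [Finite G] (p : ℕ), Nat.Prime p →
      (∃ E F : Subgroup G, ElemAb p E ∧ ElemAb p F ∧ ¬ SameComponent p E F) →
      ∃ g : G, (∀ E : Subgroup G, ElemAb p E → ¬ (∀ x : G, x ∈ E ↔ g * x * g⁻¹ ∈ E)) ∧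
        chiTilde p g = -1 := by
  intro G _ _ p hp h
  obtain ⟨E, F, hE, hF, hno⟩ := h
  exact H268R4.Quil.disc' hp hE hF hno

end Pool.Agent.Results.MP_e82547_al.Disconnected
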