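import Pool.Agent.H268R4.RankTwo

set_option autoImplicit false

namespace Pool.Agent.Results.MP_e82547_al.RankTwo

/-- `E` is a nontrivial elementary abelian `p`-subgroup of `G`, i.e. `E ∈ A_p(G)`. -/
def ElemAb {G : Type} [Group G] (p : ℕ) (E : Subgroup G) : Prop :=
  E ≠ ⊥ ∧ (∀ x ∈ E, ∀ y ∈ E, x * y = y * x) ∧ (∀ x ∈ E, x ^ p = 1)

/-- The reduced Euler characteristic of `A_p(G)^g` (the formula of the frozen statement). -/
noncomputable def chiTilde {G : Type} [Group G] (p : ℕ) (g : G) : ℤ :=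
  ∑ᶠ (s : Finset (Subgroup G))
    (_ : IsChain (· ≤ ·) (s : Set (Subgroup G)) ∧
      ∀ E ∈ s, E ≠ ⊥ ∧ (∀ x ∈ E, ∀ y ∈ E, x * y = y * x) ∧
        (∀ x ∈ E, x ^ p = 1) ∧ (∀ x : G, x ∈ E ↔ g * x * g⁻¹ ∈ E)),
    ((-1 : ℤ) ^ (s.card + 1))

/-- Q1 holds for every finite group whose elementary abelian `p`-subgroups all have order at most
`p ^ 2` (that is, for every finite group of `p`-rank at most two). -/
theorem result :
    ∀ (G : Type) [Group G] [Finite G] (p : ℕ), Nat.Prime p →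
      (∀ P : Subgroup G, P.Normal → IsPGroup p P → P = ⊥) →
      (∀ E : Subgroup G, ElemAb p E → Nat.card E ≤ p ^ 2) →
      ∃ g : G, chiTilde p g ≠ 0 := by
  intro G _ _ p hp hO hr
  exact H268R4.Quil.rank_two hp hO hr

end Pool.Agent.Results.MP_e82547_al.RankTwo
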